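import Pool.Agent.L7h20.TM4.CellDefs

set_option autoImplicit false

/-!
Certificate for the cell matrix of helper20: `X + c ≥ 0` and `X - c ≥ 0`, hence `P_CELL`.
-/

open Finset

namespace Pool.Agent.L7h70.TM4

open Pool.Agent.L7h20.TM4

/-- an integer matrix which is `L Lᵀ` plus a diagonally dominant matrix is positive -/
theorem psd_real (n : ℕ) (M L : ℕ → ℕ → ℤ) (K : ℤ) (hK : 0 < K)
    (h1 : ∀ i < n, ∑ j ∈ range n, |K * M i j - ∑ k ∈ range n, L i k * L j k| ≤
      2 * (K * M i i - ∑ k ∈ range n, L i k * L i k))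
    (h2 : ∀ j < n, ∑ i ∈ range n, |K * M i j - ∑ k ∈ range n, L i k * L j k| ≤
      2 * (K * M j j - ∑ k ∈ range n, L j k * L j k))
    (x : ℕ → ℝ) :
    0 ≤ ∑ i ∈ range n, ∑ j ∈ range n, (M i j : ℝ) * (x i * x j) := by
  set E : ℕ → ℕ → ℝ := fun i j => K * M i j - ∑ k ∈ range n, (L i k : ℝ) * L j k with hE
  have g1 : ∀ i ∈ range n, ∑ j ∈ range n, |E i j| ≤ 2 * E i i := by
    intro i hi
    have := h1 i (mem_range.1 hi)
    simp only [hE]
    exact_mod_cast this
  have g2 : ∀ j ∈ range n, ∑ i ∈ range n, |E i j| ≤ 2 * E j j := by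
    intro i hi
    have := h2 i (mem_range.1 hi)
    simp only [hE]
    exact_mod_cast this
  have hKr : (0 : ℝ) < K := by exact_mod_cast hK
  have h3 : (K : ℝ) * ∑ i ∈ range n, ∑ j ∈ range n, (M i j : ℝ) * (x i * x j) =
      ∑ i ∈ range n, ∑ j ∈ range n, E i j * (x i * x j) +
        ∑ k ∈ range n, (∑ i ∈ range n, (L i k : ℝ) * x i) ^ 2 := by
    have e1 : ∑ k ∈ range n, (∑ i ∈ range n, (L i k : ℝ) * x i) ^ 2 =
        ∑ i ∈ range n, ∑ j ∈ range n, (∑ k ∈ range n, (L i k : ℝ) * L j k) * (x i * x j) := by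
      have : ∀ k ∈ range n, (∑ i ∈ range n, (L i k : ℝ) * x i) ^ 2 =
          ∑ i ∈ range n, ∑ j ∈ range n, ((L i k : ℝ) * L j k) * (x i * x j) := by
        intro k _
        rw [sq, sum_mul_sum]
        refine sum_congr rfl fun i _ => sum_congr rfl fun j _ => ?_
        ring
      rw [sum_congr rfl this, sum_comm]
      refine sum_congr rfl fun i _ => ?_
      rw [sum_comm]
      refine sum_congr rfl fun j _ => ?_
      rw [sum_mul]
    rw [e1, mul_sum, ← sum_add_distrib]
    refine sum_congr rfl fun i _ => ?_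
    rw [mul_sum, ← sum_add_distrib]
    refine sum_congr rfl fun j _ => ?_
    simp only [hE]
    ring
  have h4 : 0 ≤ ∑ k ∈ range n, (∑ i ∈ range n, (L i k : ℝ) * x i) ^ 2 :=
    sum_nonneg fun k _ => sq_nonneg _
  have h5 : ∑ i ∈ range n, ∑ j ∈ range n,
      ((if i = j then 2 * E i i * x i ^ 2 else 0) - (|E i j| * x i ^ 2 / 2 +
        |E i j| * x j ^ 2 / 2)) ≤ ∑ i ∈ range n, ∑ j ∈ range n, E i j * (x i * x j) := by
    refine sum_le_sum fun i _ => sum_le_sum fun j _ => ?_
    split_ifs with hij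
    · subst hij
      have := le_abs_self (E i i)
      nlinarith [sq_nonneg (x i)]
    · have ha := neg_abs_le (E i j * (x i * x j))
      rw [abs_mul] at ha
      have hb : |x i * x j| ≤ (x i ^ 2 + x j ^ 2) / 2 := by
        rw [abs_le]
        constructor <;> nlinarith [sq_nonneg (x i + x j), sq_nonneg (x i - x j)]
      have := mul_le_mul_of_nonneg_left hb (abs_nonneg (E i j))
      linarith
  have h6 : ∑ i ∈ range n, ∑ j ∈ range n,
      ((if i = j then 2 * E i i * x i ^ 2 else 0) - (|E i j| * x i ^ 2 / 2 +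
        |E i j| * x j ^ 2 / 2)) = ∑ i ∈ range n, (2 * E i i * x i ^ 2) -
      (∑ i ∈ range n, (∑ j ∈ range n, |E i j|) * x i ^ 2 / 2 +
        ∑ j ∈ range n, (∑ i ∈ range n, |E i j|) * x j ^ 2 / 2) := by
    simp only [sum_sub_distrib, sum_add_distrib]
    congr 1
    · refine sum_congr rfl fun i hi => ?_
      rw [sum_ite_eq, if_pos hi]
    · congr 1
      · refine sum_congr rfl fun i _ => ?_
        rw [sum_mul, sum_div]
      · rw [sum_comm]
        refine sum_congr rfl fun i _ => ?_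
        rw [sum_mul, sum_div]
  have h7 : ∑ i ∈ range n, (∑ j ∈ range n, |E i j|) * x i ^ 2 / 2 ≤
      ∑ i ∈ range n, E i i * x i ^ 2 := by
    refine sum_le_sum fun i hi => ?_
    have := mul_le_mul_of_nonneg_right (g1 i hi) (sq_nonneg (x i))
    linarith
  have h8 : ∑ j ∈ range n, (∑ i ∈ range n, |E i j|) * x j ^ 2 / 2 ≤
      ∑ j ∈ range n, E j j * x j ^ 2 := by
    refine sum_le_sum fun i hi => ?_
    have := mul_le_mul_of_nonneg_right (g2 i hi) (sq_nonneg (x i))
    linarith
  have h9 : ∑ i ∈ range n, (2 * E i i * x i ^ 2) = 2 * ∑ i ∈ range n, E i i * x i ^ 2 := by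
    rw [mul_sum]
    exact sum_congr rfl fun i _ => by ring
  have h10 : 0 ≤ (K : ℝ) * ∑ i ∈ range n, ∑ j ∈ range n, (M i j : ℝ) * (x i * x j) := by
    rw [h3]
    linarith
  exact nonneg_of_mul_nonneg_right h10 hKr

/-- complex version -/
theorem psd_complex (n : ℕ) (M : ℕ → ℕ → ℝ)
    (h : ∀ x : ℕ → ℝ, 0 ≤ ∑ i ∈ range n, ∑ j ∈ range n, M i j * (x i * x j)) (z : ℕ → ℂ) :
    0 ≤ ∑ i ∈ range n, ∑ j ∈ range n, M i j * (z i * (starRingEnd ℂ) (z j)).re := by
  have h1 := h (fun i => (z i).re)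
  have h2 := h (fun i => (z i).im)
  have : ∑ i ∈ range n, ∑ j ∈ range n, M i j * (z i * (starRingEnd ℂ) (z j)).re =
      ∑ i ∈ range n, ∑ j ∈ range n, M i j * ((z i).re * (z j).re) +
        ∑ i ∈ range n, ∑ j ∈ range n, M i j * ((z i).im * (z j).im) := by
    rw [← sum_add_distrib]
    refine sum_congr rfl fun i _ => ?_
    rw [← sum_add_distrib]
    refine sum_congr rfl fun j _ => ?_
    simp only [Complex.mul_re, Complex.conj_re, Complex.conj_im]
    ring
  rw [this]
  exact add_nonneg h1 h2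

/-- `10000 (X + s c)` -/
def Mi (s : ℤ) (i j : ℕ) : ℤ :=
  10 * Fl.getD ((i - j) + (j - i)) 560 - 293 * ((i : ℤ) + j) + s * (if i + j ≤ 15 then 10000 else 0)

/-- Cholesky factor of `X + c` -/
def LP : List (List ℤ) := [[180272],
  [140216, 110687],
  [121006, 69783, 108692],
  [107732, 55312, 66325, 108053],
  [100115, 43341, 50629, 64581, 107324],
  [96160, 35947, 37763, 48157, 62669, 106566],
  [93703, 32618, 30004, 34928, 45660, 60877, 105957],
  [91301, 31658, 26735, 27114, 32236, 43456, 59521, 105535],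
  [88233, 31632, 26091, 23982, 24503, 29968, 41855, 58621, 32888],
  [84167, 31787, 26534, 23585, 21620, 22419, 28404, -53912, 50751, 24703],
  [79436, 31159, 27118, 24259, 21479, 19781, -73366, -14099, 18861, 19986, 29053],
  [74981, 29095, 26658, 24921, 22252, -74089, -22009, -13238, -22017, 8819, 22446, 23266],
  [71747, 25937, 24438, 24341, -70388, -18640, -13474, -14886, -39296, -17187, -1366, 19225, 23233],
  [69179, 23924, 21202, -70523, -15399, -9155, -11628, -12809, -36069, -28332, -28193, 196, 13385, 20023],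
  [66278, 23416, -72609, -17219, -8256, -8290, -8707, -8365, -23464, -23379, -31849, -27487, -8758, 7167, 22509],
  [61990, -66222, -14545, -8095, -8421, -6790, -4479, -3011, -7795, -9021, -18017, -28866, -23415, 11054, 48173, 27669]]

/-- Cholesky factor of `X - c` -/
def LM : List (List ℤ) := [[111848],
  [47180, 98479],
  [16218, 39865, 97395],
  [-5177, 14950, 36891, 95607],
  [-17452, -3469, 10918, 32192, 93241],
  [-23827, -14357, -8134, 4679, 25799, 89736],
  [-27788, -19699, -19385, -15388, -4036, 15830, 83393],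
  [-31659, -22343, -24979, -27387, -25726, -17857, -3426, 67380],
  [-36603, -24371, -27874, -33678, -38941, -42297, -44913, -60224, 70906],
  [-43157, -26847, -30215, -37376, -46356, -57621, -75053, 22097, -399, 27429],
  [-50783, -30637, -33072, -40623, -51220, -66889, 25221, -19852, -37458, 20394, 21015],
  [-57963, -35859, -37265, -44361, -55620, 37950, -8733, -24029, -45064, -8830, 12627, 24623],
  [-63175, -41516, -42840, -49274, 46861, 1123, -7371, -13563, -29522, -31295, -960, 19378, 28936],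
  [-67315, -45452, -48784, 49083, 4816, -348, 140, -1675, -7802, -27097, -20100, 4096, 34906, 32330],
  [-71990, -47914, 49691, 2819, -856, 2818, 4848, 5501, 7278, -13036, -24166, -16293, 26237, 40312, 30038],
  [-78902, 51631, 5343, -2107, -165, 3442, 5967, 9099, 16562, 4586, -3816, -1961, 17662, 36509, 46549, 23239]]

/-- entries -/
def ent (L : List (List ℤ)) (i j : ℕ) : ℤ := (L.getD i []).getD j 0

theorem Mi_symm (s : ℤ) (i j : ℕ) : Mi s i j = Mi s j i := by
  unfold Mi
  rw [add_comm (i - j), add_comm (i : ℤ), add_comm i j]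

theorem certP : ∀ i < 16, ∑ j ∈ range 16, |1000000 * Mi 1 i j -
    ∑ k ∈ range 16, ent LP i k * ent LP j k| ≤
      2 * (1000000 * Mi 1 i i - ∑ k ∈ range 16, ent LP i k * ent LP i k) := by
  decide +kernel

theorem certM : ∀ i < 16, ∑ j ∈ range 16, |1000000 * Mi (-1) i j -
    ∑ k ∈ range 16, ent LM i k * ent LM j k| ≤
      2 * (1000000 * Mi (-1) i i - ∑ k ∈ range 16, ent LM i k * ent LM i k) := by
  decide +kernel

theorem cert_symm {s : ℤ} {L : List (List ℤ)} (h : ∀ i < 16, ∑ j ∈ range 16, |1000000 * Mi s i j -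
    ∑ k ∈ range 16, ent L i k * ent L j k| ≤
      2 * (1000000 * Mi s i i - ∑ k ∈ range 16, ent L i k * ent L i k)) :
    ∀ j < 16, ∑ i ∈ range 16, |1000000 * Mi s i j -
    ∑ k ∈ range 16, ent L i k * ent L j k| ≤
      2 * (1000000 * Mi s j j - ∑ k ∈ range 16, ent L j k * ent L j k) := by
  intro j hj
  refine le_trans (le_of_eq ?_) (h j hj)
  refine sum_congr rfl fun i _ => ?_
  rw [Mi_symm s i j]
  have : ∑ k ∈ range 16, ent L i k * ent L j k = ∑ k ∈ range 16, ent L j k * ent L i k :=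
    sum_congr rfl fun k _ => mul_comm _ _
  rw [this]

theorem Xm_add (s : ℤ) (i j : ℕ) : Xm i j + s * cm i j = (Mi s i j : ℝ) / 10000 := by
  unfold Xm Ft cm Mi
  split_ifs <;> push_cast <;> ring

theorem psdX {s : ℤ} {L : List (List ℤ)} (h : ∀ i < 16, ∑ j ∈ range 16, |1000000 * Mi s i j -
    ∑ k ∈ range 16, ent L i k * ent L j k| ≤
      2 * (1000000 * Mi s i i - ∑ k ∈ range 16, ent L i k * ent L i k)) (z : ℕ → ℂ) :
    0 ≤ ∑ i ∈ range 16, ∑ j ∈ range 16,
      (Xm i j + s * cm i j) * (z i * (starRingEnd ℂ) (z j)).re := by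
  refine psd_complex 16 (fun i j => Xm i j + s * cm i j) (fun x => ?_) z
  have h1 := psd_real 16 (Mi s) (ent L) 1000000 (by norm_num) h (cert_symm h) x
  have h2 : ∑ i ∈ range 16, ∑ j ∈ range 16, (Xm i j + s * cm i j) * (x i * x j) =
      (∑ i ∈ range 16, ∑ j ∈ range 16, (Mi s i j : ℝ) * (x i * x j)) / 10000 := by
    rw [sum_div]
    refine sum_congr rfl fun i _ => ?_
    rw [sum_div]
    refine sum_congr rfl fun j _ => ?_
    rw [Xm_add]
    ring
  rw [h2]
  positivity

theorem Xm_symm (i j : ℕ) : Xm i j = Xm j i := by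
  unfold Xm
  rw [add_comm (i - j), add_comm (i : ℝ)]

theorem cm_symm (i j : ℕ) : cm i j = cm j i := by
  unfold cm
  rw [add_comm]

theorem t_CELL : P_CELL := by
  intro z w
  set S : ℂ := ∑ i ∈ range 16, ∑ j ∈ range 16, (cm i j : ℂ) * (z i * w j) with hS
  obtain ⟨θ, hθ, hθS⟩ : ∃ θ : ℂ, ‖θ‖ = 1 ∧ θ * S = (‖S‖ : ℂ) := by
    by_cases h0 : S = 0
    · exact ⟨1, by simp, by simp [h0]⟩
    · refine ⟨(starRingEnd ℂ) S / ‖S‖, ?_, ?_⟩
      · rw [norm_div, RCLike.norm_conj, Complex.norm_real, norm_norm, div_self (norm_ne_zero_iff.2 h0)]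
      · rw [div_mul_eq_mul_div, ← Complex.normSq_eq_conj_mul_self, Complex.normSq_eq_norm_sq]
        have : (‖S‖ : ℂ) ≠ 0 := by exact_mod_cast norm_ne_zero_iff.2 h0
        push_cast
        field_simp
  set a : ℕ → ℂ := fun i => θ * z i with ha
  set b : ℕ → ℂ := fun i => (starRingEnd ℂ) (w i) with hb
  have hm := psdX certM (fun i => a i + b i)
  have hp := psdX certP (fun i => a i - b i)
  have hθθ : θ * (starRingEnd ℂ) θ = 1 := by
    rw [Complex.mul_conj, Complex.normSq_eq_norm_sq, hθ]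
    norm_num
  -- the four forms
  have eA : ∀ i j, (a i * (starRingEnd ℂ) (a j)).re = (z i * (starRingEnd ℂ) (z j)).re := by
    intro i j
    simp only [ha, map_mul]
    congr 1
    calc θ * z i * ((starRingEnd ℂ) θ * (starRingEnd ℂ) (z j)) =
          (θ * (starRingEnd ℂ) θ) * (z i * (starRingEnd ℂ) (z j)) := by ring
      _ = _ := by rw [hθθ, one_mul]
  have eB : ∀ i j, (b i * (starRingEnd ℂ) (b j)).re = (w i * (starRingEnd ℂ) (w j)).re := by
    intro i j
    simp only [hb, Complex.mul_re, Complex.conj_re, Complex.conj_im]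
    ring
  have eS : ∑ i ∈ range 16, ∑ j ∈ range 16, cm i j * (a i * (starRingEnd ℂ) (b j)).re = ‖S‖ := by
    have h1 : θ * S = ∑ i ∈ range 16, ∑ j ∈ range 16, (cm i j : ℂ) * (a i * (starRingEnd ℂ) (b j)) := by
      rw [hS, mul_sum]
      refine sum_congr rfl fun i _ => ?_
      rw [mul_sum]
      refine sum_congr rfl fun j _ => ?_
      simp only [ha, hb, Complex.conj_conj]
      ring
    have h2 := congrArg Complex.re (hθS.symm.trans h1)
    rw [Complex.ofReal_re, Complex.re_sum] at h2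
    rw [h2]
    refine sum_congr rfl fun i _ => ?_
    rw [Complex.re_sum]
    refine sum_congr rfl fun j _ => ?_
    rw [Complex.re_ofReal_mul]
  have eS' : ∑ i ∈ range 16, ∑ j ∈ range 16, cm i j * (b i * (starRingEnd ℂ) (a j)).re = ‖S‖ := by
    rw [← eS, sum_comm]
    refine sum_congr rfl fun i _ => sum_congr rfl fun j _ => ?_
    rw [cm_symm]
    congr 1
    simp only [Complex.mul_re, Complex.conj_re, Complex.conj_im]
    ring
  have hsum : ∑ i ∈ range 16, ∑ j ∈ range 16, (Xm i j + ((-1 : ℤ) : ℝ) * cm i j) *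
        ((a i + b i) * (starRingEnd ℂ) (a j + b j)).re +
      ∑ i ∈ range 16, ∑ j ∈ range 16, (Xm i j + ((1 : ℤ) : ℝ) * cm i j) *
        ((a i - b i) * (starRingEnd ℂ) (a j - b j)).re =
      2 * ∑ i ∈ range 16, ∑ j ∈ range 16, Xm i j * (a i * (starRingEnd ℂ) (a j)).re +
      2 * ∑ i ∈ range 16, ∑ j ∈ range 16, Xm i j * (b i * (starRingEnd ℂ) (b j)).re -
      2 * ∑ i ∈ range 16, ∑ j ∈ range 16, cm i j * (a i * (starRingEnd ℂ) (b j)).re -
      2 * ∑ i ∈ range 16, ∑ j ∈ range 16, cm i j * (b i * (starRingEnd ℂ) (a j)).re := by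
    simp only [mul_sum]
    simp only [← sum_add_distrib, ← sum_sub_distrib]
    refine sum_congr rfl fun i _ => sum_congr rfl fun j _ => ?_
    simp only [map_add, map_sub, add_mul, mul_add, sub_mul, mul_sub, Complex.add_re,
      Complex.sub_re]
    push_cast
    ring
  simp only [eA, eB] at hsum
  rw [eS, eS'] at hsum
  have h0 := add_nonneg hm hp
  rw [hsum] at h0
  linarith

end Pool.Agent.L7h70.TM4
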